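import Mathlib
import Pool.Agent.Q201.Dfn
import Pool.Agent.Q201.SetAlg

set_option autoImplicit false

/-!
# A semigroup algebra which is not logically homogeneous

Let `S` be the set of the ordinals below `ω·3` with the operation `max`.  Every element of `S` is
definable, so `S` is logically homogeneous.  The semigroup algebra `Z₂S` is a Boolean ring; it is
isomorphic to the ring of sets generated by the intervals `[s, ω·3)`.  The elements `a` and `b`
corresponding to the sets `[0, ω)` and `[ω, ω·3)` satisfy the same first-order formulas, since the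
type of a tuple in a Boolean ring of sets containing the finite sets depends only on the sizes of
the cells.  No automorphism takes `a` to `b`, as `b` is the sum of two orthogonal elements both
having infinitely many multiples, and `a` is not.
-/

namespace Pool.Agent.Results.MP_c05c30_lc.ChainAlgebra

open FirstOrder FirstOrder.Language

/-- The operation of the language of semigroups. -/
inductive SgFunc : ℕ → Type
  | mul : SgFunc 2

/-- The language of semigroups: one binary operation. -/
def sgLang : FirstOrder.Language := ⟨SgFunc, fun _ => Empty⟩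

/-- A semigroup as a structure in the language of semigroups. -/
instance sgStructure (S : Type) [Semigroup S] : sgLang.Structure S where
  funMap := fun {_} f v => match f, v with
    | .mul, v => v 0 * v 1
  RelMap := fun r _ => nomatch r

/-- The operations of the language of associative algebras over `P`: the ring operations and the
multiplications by the scalars. -/
inductive AlgFunc (P : Type) : ℕ → Type
  | zero : AlgFunc P 0
  | neg : AlgFunc P 1
  | smul (a : P) : AlgFunc P 1
  | add : AlgFunc P 2
  | mul : AlgFunc P 2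

/-- The language of associative algebras over `P`. -/
def algLang (P : Type) : FirstOrder.Language := ⟨AlgFunc P, fun _ => Empty⟩

/-- An algebra over `P` as a structure. -/
instance algStructure (P A : Type) [Field P] [NonUnitalRing A] [Module P A] :
    (algLang P).Structure A where
  funMap := fun {_} f v => match f, v with
    | .zero, _ => 0
    | .neg, v => - v 0
    | .smul a, v => a • v 0
    | .add, v => v 0 + v 1
    | .mul, v => v 0 * v 1
  RelMap := fun r _ => nomatch r

/-- `M` is logically homogeneous: two tuples satisfy the same first-order formulas if and only if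
some automorphism takes one to the other. -/
def LogicallyHomogeneous (L : FirstOrder.Language) (M : Type) [L.Structure M] : Prop :=
  ∀ (n : ℕ) (μ ν : Fin n → M),
    (∀ φ : L.Formula (Fin n), φ.Realize μ ↔ φ.Realize ν) ↔ ∃ σ : M ≃[L] M, ∀ i, σ (μ i) = ν i

/-- The field `P`, in the language of rings, is logically homogeneous. -/
def FieldHomogeneous (P : Type) [Field P] : Prop :=
  letI := FirstOrder.Ring.compatibleRingOfRing P
  LogicallyHomogeneous Language.ring P

/-- The statement in the question: the semigroup algebra of a logically homogeneous semigroup over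
a logically homogeneous field is logically homogeneous. -/
def Statement : Prop :=
  ∀ (S : Type) [Semigroup S] (P : Type) [Field P], LogicallyHomogeneous sgLang S →
    FieldHomogeneous P → LogicallyHomogeneous (algLang P) (MonoidAlgebra P S)

/-! ### The semigroup -/

/-- The ordinals below `ω·3`: the element `ω·blk + pos`. -/
@[ext]
structure Ch : Type where
  blk : Fin 3
  pos : ℕ

theorem toLex_injective : Function.Injective (fun c : Ch => toLex (c.blk, c.pos)) := by
  intro a b h
  have h1 : (a.blk, a.pos) = (b.blk, b.pos) := toLex.injective h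
  rw [Prod.mk.injEq] at h1
  exact Ch.ext h1.1 h1.2

/-- the lexicographic order -/
noncomputable instance chOrder : LinearOrder Ch :=
  LinearOrder.lift' (fun c : Ch => (toLex (c.blk, c.pos) : Fin 3 ×ₗ ℕ)) toLex_injective

theorem ch_lt (a b : Ch) : a < b ↔
    a.blk.val < b.blk.val ∨ (a.blk.val = b.blk.val ∧ a.pos < b.pos) := by
  rw [← Fin.ext_iff]
  exact Prod.Lex.lt_iff

theorem ch_le (a b : Ch) : a ≤ b ↔
    a.blk.val < b.blk.val ∨ (a.blk.val = b.blk.val ∧ a.pos ≤ b.pos) := by
  rw [← Fin.ext_iff]
  exact Prod.Lex.le_iff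

theorem bot_le' (a : Ch) : (⟨0, 0⟩ : Ch) ≤ a := by
  rw [ch_le]
  have : (0 : Fin 3).val = 0 := rfl
  simp only [this]
  omega

/-- `S = (ω·3, max)`, a commutative monoid. -/
noncomputable instance chMonoid : CommMonoid Ch where
  mul := max
  mul_assoc := max_assoc
  mul_comm := max_comm
  one := ⟨0, 0⟩
  one_mul := fun a => max_eq_right (bot_le' a)
  mul_one := fun a => max_eq_left (bot_le' a)

theorem mul_def (a b : Ch) : a * b = max a b := rfl

/-- `x` is the immediate predecessor of `y` -/
def Prd (x y : Ch) : Prop := x < y ∧ ∀ z, ¬ (x < z ∧ z < y)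

theorem prd_iff (x y : Ch) : Prd x y ↔
    x.blk = y.blk ∧ y.pos = x.pos + 1 := by
  rw [Fin.ext_iff]
  constructor
  · rintro ⟨h1, h2⟩
    have h3 := h2 ⟨x.blk, x.pos + 1⟩
    rw [ch_lt, ch_lt] at h3
    rw [ch_lt] at h1
    change ¬ ((x.blk.val < x.blk.val ∨ (x.blk.val = x.blk.val ∧ x.pos < x.pos + 1)) ∧
      (x.blk.val < y.blk.val ∨ (x.blk.val = y.blk.val ∧ x.pos + 1 < y.pos))) at h3
    omega
  · rintro ⟨h1, h2⟩
    refine ⟨?_, ?_⟩
    · rw [ch_lt]
      omega
    · intro z
      rw [ch_lt, ch_lt]
      omega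

/-- `x` is the `m`-th successor of an element without immediate predecessor -/
def Pm : ℕ → Ch → Prop
  | 0, x => ¬ ∃ y, Prd y x
  | m + 1, x => ∃ y, Prd y x ∧ Pm m y

theorem pm_iff (m : ℕ) (x : Ch) : Pm m x ↔ x.pos = m := by
  induction m generalizing x with
  | zero =>
    unfold Pm
    constructor
    · intro h
      by_contra h2
      apply h
      refine ⟨⟨x.blk, x.pos - 1⟩, ?_⟩
      rw [prd_iff]
      exact ⟨rfl, by simp only; omega⟩
    · rintro h ⟨y, hy⟩
      rw [prd_iff] at hy
      omega
  | succ m ih =>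
    unfold Pm
    constructor
    · rintro ⟨y, hy, hy2⟩
      rw [prd_iff] at hy
      rw [ih] at hy2
      omega
    · intro h
      refine ⟨⟨x.blk, m⟩, ?_, ?_⟩
      · rw [prd_iff]
        exact ⟨rfl, h⟩
      · rw [ih]

/-- `x` is at least `ω` -/
def Q1 (x : Ch) : Prop := ∃ y, y ≤ x ∧ Pm 0 y ∧ ∃ z, z < y

/-- `x` is at least `ω·2` -/
def Q2 (x : Ch) : Prop := ∃ y, y ≤ x ∧ Pm 0 y ∧ ∃ z, z < y ∧ Pm 0 z ∧ ∃ w, w < z

theorem q1_iff (x : Ch) : Q1 x ↔ 1 ≤ x.blk.val := by
  constructor
  · rintro ⟨y, hyx, hy, z, hz⟩
    rw [pm_iff] at hy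
    rw [ch_lt] at hz
    rw [ch_le] at hyx
    omega
  · intro h
    refine ⟨⟨1, 0⟩, ?_, ?_, ⟨0, 0⟩, ?_⟩
    · rw [ch_le]
      have : (1 : Fin 3).val = 1 := rfl
      simp only [this]
      omega
    · rw [pm_iff]
    · rw [ch_lt]
      left
      decide

theorem q2_iff (x : Ch) : Q2 x ↔ 2 ≤ x.blk.val := by
  constructor
  · rintro ⟨y, hyx, hy, z, hz, hz0, w, hw⟩
    rw [pm_iff] at hy hz0
    rw [ch_lt] at hz hw
    rw [ch_le] at hyx
    omega
  · intro h
    refine ⟨⟨2, 0⟩, ?_, ?_, ⟨1, 0⟩, ?_, ?_, ⟨0, 0⟩, ?_⟩
    · rw [ch_le]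
      have : (2 : Fin 3).val = 2 := rfl
      simp only [this]
      omega
    · rw [pm_iff]
    · rw [ch_lt]
      left
      decide
    · rw [pm_iff]
    · rw [ch_lt]
      left
      decide

open Q201.Dfn

theorem df_le (i j : ℕ) : Df sgLang (fun v : ℕ → Ch => v i ≤ v j) := by
  let t : sgLang.Term ℕ := Term.func (SgFunc.mul : sgLang.Functions 2) ![Term.var i, Term.var j]
  refine (Df.eq t (Term.var j)).congr (fun v => ?_)
  have : t.realize v = v i * v j := rfl
  rw [this, Term.realize_var, mul_def, max_eq_right_iff]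

theorem df_lt (i j : ℕ) : Df sgLang (fun v : ℕ → Ch => v i < v j) :=
  ((df_le i j).and (Df.eqVar i j).not).congr (fun _ => lt_iff_le_and_ne.symm)

theorem df_prd : Df sgLang (fun v : ℕ → Ch => Prd (v 1) (v 0)) := by
  refine ((df_lt 1 0).and (((df_lt 1 2).and (df_lt 2 0)).not.all 2)).congr (fun v => ?_)
  unfold Prd
  simp [Function.update]

theorem df_pm (m : ℕ) : Df sgLang (fun v : ℕ → Ch => Pm m (v 0)) := by
  induction m with
  | zero =>
    refine (df_prd.ex 1).not.congr (fun v => ?_)
    simp [Pm, Function.update]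
  | succ m ih =>
    refine ((df_prd.and (ih.sub (fun _ => 1))).ex 1).congr (fun v => ?_)
    simp [Pm, Function.update]

theorem df_q1 : Df sgLang (fun v : ℕ → Ch => Q1 (v 0)) := by
  refine (((df_le 1 0).and (((df_pm 0).sub (fun _ => 1)).and ((df_lt 2 1).ex 2))).ex 1).congr
    (fun v => ?_)
  simp [Q1, Function.update]

theorem df_q2 : Df sgLang (fun v : ℕ → Ch => Q2 (v 0)) := by
  refine (((df_le 1 0).and (((df_pm 0).sub (fun _ => 1)).and (((df_lt 2 1).and
    (((df_pm 0).sub (fun _ => 2)).and ((df_lt 3 2).ex 3))).ex 2))).ex 1).congr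
    (fun v => ?_)
  simp [Q2, Function.update]

/-- The semigroup `(ω·3, max)` is logically homogeneous; in fact all its elements are definable. -/
theorem ch_homogeneous : LogicallyHomogeneous sgLang Ch := by
  intro n μ ν
  constructor
  · intro h
    refine ⟨Language.Equiv.refl sgLang Ch, fun i => ?_⟩
    change μ i = ν i
    have h' : SameType sgLang μ ν := h
    have h1 := h'.df1 (df_pm (μ i).pos).df1 i
    rw [pm_iff, pm_iff] at h1
    have h2 := h1.1 rfl
    have h3 := h'.df1 df_q1.df1 i
    have h4 := h'.df1 df_q2.df1 i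
    rw [q1_iff, q1_iff] at h3
    rw [q2_iff, q2_iff] at h4
    apply Ch.ext
    · apply Fin.ext
      have := (μ i).blk.isLt
      have := (ν i).blk.isLt
      omega
    · exact h2.symm
  · rintro ⟨σ, hσ⟩ φ
    have : ν = σ ∘ μ := by
      funext i
      exact (hσ i).symm
    rw [this]
    exact (StrongHomClass.realize_formula σ φ).symm

/-- The field with two elements is logically homogeneous. -/
theorem field_homogeneous : FieldHomogeneous (ZMod 2) := by
  unfold FieldHomogeneous
  let _ := FirstOrder.Ring.compatibleRingOfRing (ZMod 2)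
  intro n μ ν
  constructor
  · intro h
    refine ⟨Language.Equiv.refl Language.ring (ZMod 2), fun i => ?_⟩
    change μ i = ν i
    have h1 := h (Term.equal (Term.var i) (0 : Language.ring.Term (Fin n)))
    rw [Formula.realize_equal, Formula.realize_equal] at h1
    simp only [Term.realize_var, FirstOrder.Ring.realize_zero] at h1
    generalize μ i = x at *
    generalize ν i = y at *
    revert x y
    decide
  · rintro ⟨σ, hσ⟩ φ
    have : ν = σ ∘ μ := by
      funext i
      exact (hσ i).symm
    rw [this]
    exact (StrongHomClass.realize_formula σ φ).symm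

/-! ### The algebra -/

/-- the semigroup algebra -/
abbrev Al : Type := MonoidAlgebra (ZMod 2) Ch

/-- the character given by the point `x` -/
noncomputable def chr (x : Ch) : Al →ₐ[ZMod 2] ZMod 2 :=
  MonoidAlgebra.lift (ZMod 2) (ZMod 2) Ch
    { toFun := fun s => if s ≤ x then 1 else 0
      map_one' := if_pos (by
        have := one_mul x
        rw [mul_def, max_eq_right_iff] at this
        exact this)
      map_mul' := by
        intro s t
        rw [mul_def]
        by_cases h1 : s ≤ x <;> by_cases h2 : t ≤ x <;> simp [h1, h2] }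

/-- the element of the algebra given by `s` -/
noncomputable def el (s : Ch) : Al := MonoidAlgebra.of (ZMod 2) Ch s

theorem chr_el (x s : Ch) : chr x (el s) = if s ≤ x then 1 else 0 := by
  unfold chr el
  rw [MonoidAlgebra.lift_of]
  rfl

theorem chr_apply (x : Ch) (f : Al) :
    chr x f = ∑ t ∈ f.coeff.support, f.coeff t * (if t ≤ x then 1 else 0) := by
  unfold chr
  rw [MonoidAlgebra.lift_apply]
  rfl

/-- the characters separate the elements -/
theorem chr_injective (f g : Al) (h : ∀ x, chr x f = chr x g) : f = g := by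
  by_contra hne
  have h0 : f - g ≠ 0 := sub_ne_zero.2 hne
  have hx : ∀ x, chr x (f - g) = 0 := fun x => by rw [map_sub, h x, sub_self]
  set d := f - g
  have hsup : d.coeff.support.Nonempty := by
    rw [Finsupp.support_nonempty_iff]
    intro hd
    apply h0
    apply MonoidAlgebra.ext
    rw [hd]
    rfl
  have hmin := d.coeff.support.min'_mem hsup
  set s := d.coeff.support.min' hsup with hs
  have h1 := hx s
  rw [chr_apply, Finset.sum_eq_single s] at h1
  · rw [if_pos le_rfl, mul_one] at h1
    exact (Finsupp.mem_support_iff.1 hmin) h1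
  · intro t ht hts
    have : ¬ t ≤ s := fun hle => hts (le_antisymm hle (d.coeff.support.min'_le t ht))
    rw [if_neg this, mul_zero]
  · intro hns
    exact absurd hmin hns

/-- the successor of `x` -/
def nx (x : Ch) : Ch := ⟨x.blk, x.pos + 1⟩

/-- the element with the set `{x}` -/
noncomputable def sing (x : Ch) : Al := el x + el (nx x)

theorem chr_sing (x y : Ch) : chr y (sing x) = if y = x then 1 else 0 := by
  unfold sing
  rw [map_add, chr_el, chr_el]
  by_cases h : y = x
  · subst h
    have h1 : ¬ nx y ≤ y := by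
      rw [ch_le]
      change ¬ (y.blk.val < y.blk.val ∨ (y.blk.val = y.blk.val ∧ y.pos + 1 ≤ y.pos))
      omega
    rw [if_pos le_rfl, if_neg h1, if_pos rfl, add_zero]
  · rw [if_neg h]
    have h1 : nx x ≤ y ↔ x ≤ y := by
      rw [ch_le, ch_le]
      change (x.blk.val < y.blk.val ∨ (x.blk.val = y.blk.val ∧ x.pos + 1 ≤ y.pos)) ↔ _
      have h2 : ¬ (y.blk.val = x.blk.val ∧ y.pos = x.pos) := by
        rintro ⟨h3, h4⟩
        exact h (Ch.ext (Fin.ext h3) h4)
      omega
    simp only [h1]
    by_cases h2 : x ≤ y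
    · rw [if_pos h2]; decide
    · rw [if_neg h2]; decide

/-- the homomorphism of structures given by a point -/
noncomputable def χ (x : Ch) : Al →[algLang (ZMod 2)] ZMod 2 where
  toFun := chr x
  map_fun' := by
    intro n f v
    cases f with
    | zero => exact map_zero (chr x)
    | neg => exact map_neg (chr x) _
    | smul a => exact map_smul (chr x) a _
    | add => exact map_add (chr x) _ _
    | mul => exact map_mul (chr x) _ _
  map_rel' := by
    intro n r
    exact nomatch r

theorem χ_apply (x : Ch) (f : Al) : χ x f = chr x f := rfl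

theorem prod_eq {n : ℕ} (σ τ : Fin n → ZMod 2) :
    ∏ i, (σ i + τ i + 1) = if σ = τ then 1 else 0 := by
  by_cases h : σ = τ
  · subst h
    rw [if_pos rfl]
    apply Finset.prod_eq_one
    intro i _
    generalize σ i = x
    revert x
    decide
  · rw [if_neg h]
    obtain ⟨i, hi⟩ := Function.ne_iff.1 h
    apply Finset.prod_eq_zero (Finset.mem_univ i)
    generalize σ i = x at *
    generalize τ i = y at *
    revert x y
    decide

theorem rich : Q201.SetAlg.Rich χ := by
  classical
  rintro n w h ⟨G, F, hF, hh⟩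
  obtain ⟨m0, hm0⟩ : ∃ m0 : Al, ∀ x, chr x m0 = G (fun i => chr x (w i)) := by
    refine ⟨∑ τ : Fin n → ZMod 2, G τ • ∏ i, (w i + algebraMap (ZMod 2) Al (τ i) + 1),
      fun x => ?_⟩
    simp only [map_sum, map_smul, map_prod, map_add, map_one, AlgHom.commutes]
    simp only [Algebra.algebraMap_self, RingHom.id_apply, smul_eq_mul]
    simp only [prod_eq]
    rw [Finset.sum_eq_single (fun i => chr x (w i))]
    · simp
    · intro τ _ hτ
      rw [if_neg (fun h => hτ h.symm), mul_zero]
    · intro h
      exact absurd (Finset.mem_univ _) h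
  refine ⟨m0 + ∑ y ∈ hF.toFinset, (h y - chr y m0) • sing y, fun x => ?_⟩
  rw [χ_apply, map_add, map_sum]
  simp only [map_smul, chr_sing, smul_eq_mul, mul_ite, mul_one, mul_zero]
  rw [Finset.sum_ite_eq]
  by_cases hx : x ∈ F
  · rw [if_pos (hF.mem_toFinset.2 hx)]
    ring
  · rw [if_neg (fun h => hx (hF.mem_toFinset.1 h)), add_zero, hm0]
    exact (hh x hx).symm

/-- the element `a` with the set `[0, ω)` -/
noncomputable def ea : Al := el ⟨0, 0⟩ + el ⟨1, 0⟩

/-- the element `b` with the set `[ω, ω·3)` -/
noncomputable def eb : Al := el ⟨1, 0⟩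

theorem chr_el0 (x : Ch) (j : Fin 3) : chr x (el ⟨j, 0⟩) = if j.val ≤ x.blk.val then 1 else 0 := by
  rw [chr_el]
  have : (⟨j, 0⟩ : Ch) ≤ x ↔ j.val ≤ x.blk.val := by
    rw [ch_le]
    change (j.val < x.blk.val ∨ (j.val = x.blk.val ∧ 0 ≤ x.pos)) ↔ _
    omega
  simp only [this]

theorem chr_ea (x : Ch) : chr x ea = if x.blk.val = 0 then 1 else 0 := by
  unfold ea
  rw [map_add, chr_el0, chr_el0]
  have h0 : (0 : Fin 3).val = 0 := rfl
  have h1 : (1 : Fin 3).val = 1 := rfl
  rw [h0, h1, if_pos (Nat.zero_le _)]
  by_cases h : x.blk.val = 0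
  · rw [if_neg (by omega), if_pos h, add_zero]
  · rw [if_pos (by omega), if_neg h]; decide

theorem chr_eb (x : Ch) : chr x eb = if x.blk.val = 0 then 0 else 1 := by
  unfold eb
  rw [chr_el0]
  have h1 : (1 : Fin 3).val = 1 := rfl
  rw [h1]
  by_cases h : x.blk.val = 0
  · rw [if_neg (by omega), if_pos h]
  · rw [if_pos (by omega), if_neg h]

theorem infinite_block (i : Fin 3) : {x : Ch | x.blk = i}.Infinite := by
  apply Set.infinite_of_injective_forall_mem (f := fun n : ℕ => (⟨i, n⟩ : Ch))
  · intro m n h
    exact (Ch.mk.injEq _ _ _ _ ▸ h : _ ∧ _).2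
  · intro n
    rfl

theorem sameType (φ : (algLang (ZMod 2)).Formula (Fin 1)) :
    φ.Realize (fun _ => ea) ↔ φ.Realize (fun _ => eb) := by
  have halg : (algLang (ZMod 2)).IsAlgebraic := fun n => inferInstanceAs (IsEmpty Empty)
  refine Q201.SetAlg.sameType rich ⟨0, 1, by decide, by decide⟩ (fun m m' h => chr_injective _ _ h)
    _ _ (fun σ N => ?_) φ
  right
  have hz : ∀ z : ZMod 2, z = 0 ∨ z = 1 := by decide
  have h1 : (Q201.SetAlg.cell χ (fun _ : Fin 1 => ea) σ).Infinite := by
    rcases hz (σ 0) with h | h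
    · refine (infinite_block 1).mono fun x hx i => ?_
      rw [χ_apply, chr_ea, Subsingleton.elim i 0, h, if_neg]
      rw [show x.blk = 1 from hx]
      decide
    · refine (infinite_block 0).mono fun x hx i => ?_
      rw [χ_apply, chr_ea, Subsingleton.elim i 0, h, if_pos]
      rw [show x.blk = 0 from hx]
      rfl
  have h2 : (Q201.SetAlg.cell χ (fun _ : Fin 1 => eb) σ).Infinite := by
    rcases hz (σ 0) with h | h
    · refine (infinite_block 0).mono fun x hx i => ?_
      rw [χ_apply, chr_eb, Subsingleton.elim i 0, h, if_pos]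
      rw [show x.blk = 0 from hx]
      rfl
    · refine (infinite_block 1).mono fun x hx i => ?_
      rw [χ_apply, chr_eb, Subsingleton.elim i 0, h, if_neg]
      rw [show x.blk = 1 from hx]
      decide
  rw [Set.encard_eq_top_iff.2 h1, Set.encard_eq_top_iff.2 h2]
  exact ⟨le_top, le_top⟩

/-- every element of the algebra is eventually constant on the first block -/
theorem eventually_const (f : Al) : ∃ (N : ℕ) (c : ZMod 2), ∀ n, N ≤ n → chr ⟨0, n⟩ f = c := by
  classical
  let N := f.coeff.support.sup (fun t => t.pos)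
  refine ⟨N, ∑ t ∈ f.coeff.support, f.coeff t * (if t.blk.val = 0 then 1 else 0), fun n hn => ?_⟩
  rw [chr_apply]
  apply Finset.sum_congr rfl
  intro t ht
  congr 1
  have h1 : t.pos ≤ N := Finset.le_sup (f := fun t : Ch => t.pos) ht
  have h2 : t ≤ (⟨0, n⟩ : Ch) ↔ t.blk.val = 0 := by
    rw [ch_le]
    change (t.blk.val < 0 ∨ (t.blk.val = 0 ∧ t.pos ≤ n)) ↔ _
    omega
  simp only [h2]

/-- an element with a finite set has finitely many multiples -/
theorem finite_mult (f : Al) (hf : {x | chr x f = 1}.Finite) : {c : Al | c * f = c}.Finite := by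
  have hinj : Set.InjOn (fun c : Al => {x | chr x c = 1}) Set.univ := by
    intro c _ d _ h
    apply chr_injective
    intro x
    have h1 : chr x c = 1 ↔ chr x d = 1 := by
      have h2 : {x | chr x c = 1} = {x | chr x d = 1} := h
      exact Set.ext_iff.1 h2 x
    generalize chr x c = u at *
    generalize chr x d = w at *
    revert u w
    decide
  refine Set.Finite.of_finite_image (f := fun c : Al => {x | chr x c = 1}) ?_
    (hinj.mono (Set.subset_univ _))
  refine hf.finite_subsets.subset ?_
  rintro _ ⟨c, hc, rfl⟩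
  intro x hx
  have hx' : chr x c = 1 := hx
  have hc' : c * f = c := hc
  have h3 : chr x c * chr x f = chr x c := by rw [← map_mul, hc']
  change chr x f = 1
  rwa [hx', one_mul] at h3

theorem infinite_mult (f : Al) (hf : {x | chr x f = 1}.Infinite) : {c : Al | c * f = c}.Infinite := by
  intro hfin
  apply hf
  have hinj : Function.Injective sing := by
    intro x y h
    have h1 := chr_sing x x
    rw [h, chr_sing, if_pos rfl] at h1
    by_contra hne
    rw [if_neg hne] at h1
    exact absurd h1 (by decide)
  refine Set.Finite.of_finite_image (f := sing) (hfin.subset ?_) hinj.injOn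
  rintro _ ⟨x, hx, rfl⟩
  have hx' : chr x f = 1 := hx
  change sing x * f = sing x
  apply chr_injective
  intro y
  rw [map_mul, chr_sing]
  by_cases h : y = x
  · subst h
    rw [hx', mul_one]
  · rw [if_neg h, zero_mul]

/-- The property which distinguishes `a` from `b`. -/
def Splits (f : Al) : Prop :=
  ∃ f1 f2 : Al, f1 + f2 = f ∧ f1 * f2 = 0 ∧ {c : Al | c * f1 = c}.Infinite ∧
    {c : Al | c * f2 = c}.Infinite

theorem splits_b : Splits eb := by
  refine ⟨el ⟨1, 0⟩ + el ⟨2, 0⟩, el ⟨2, 0⟩, ?_, ?_, ?_, ?_⟩
  · apply chr_injective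
    intro x
    unfold eb
    rw [map_add, map_add, add_assoc]
    generalize chr x (el ⟨2, 0⟩) = u
    generalize chr x (el ⟨1, 0⟩) = w
    revert u w
    decide
  · apply chr_injective
    intro x
    rw [map_mul, map_add, chr_el0, chr_el0, map_zero]
    have h1 : (1 : Fin 3).val = 1 := rfl
    have h2 : (2 : Fin 3).val = 2 := rfl
    rw [h1, h2]
    by_cases h : 2 ≤ x.blk.val
    · rw [if_pos h, if_pos (by omega)]; decide
    · rw [if_neg h, mul_zero]
  · apply infinite_mult
    refine (infinite_block 1).mono fun x hx => ?_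
    change chr x _ = 1
    rw [map_add, chr_el0, chr_el0, show x.blk = 1 from hx]
    decide
  · apply infinite_mult
    refine (infinite_block 2).mono fun x hx => ?_
    change chr x _ = 1
    rw [chr_el0, show x.blk = 2 from hx]
    decide

theorem not_splits_a : ¬ Splits ea := by
  rintro ⟨f1, f2, hadd, hmul, h1, h2⟩
  obtain ⟨N1, c1, hN1⟩ := eventually_const f1
  obtain ⟨N2, c2, hN2⟩ := eventually_const f2
  have hz : ∀ z : ZMod 2, z = 0 ∨ z = 1 := by decide
  -- off the first block both vanish
  have hoff : ∀ x : Ch, x.blk.val ≠ 0 → chr x f1 = 0 ∧ chr x f2 = 0 := by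
    intro x hx
    have h3 : chr x f1 + chr x f2 = 0 := by rw [← map_add, hadd, chr_ea, if_neg hx]
    have h4 : chr x f1 * chr x f2 = 0 := by rw [← map_mul, hmul, map_zero]
    generalize chr x f1 = u at *
    generalize chr x f2 = w at *
    revert u w
    decide
  have hfin : ∀ (f : Al) (N : ℕ), (∀ x : Ch, x.blk.val ≠ 0 → chr x f = 0) →
      (∀ n, N ≤ n → chr ⟨0, n⟩ f = 0) → {x | chr x f = 1}.Finite := by
    intro f N h3 h4
    refine ((Set.finite_Iio N).image (fun n : ℕ => (⟨0, n⟩ : Ch))).subset fun x hx => ?_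
    have hx' : chr x f = 1 := hx
    have h5 : x.blk.val = 0 := by
      by_contra h6
      rw [h3 x h6] at hx'
      exact absurd hx' (by decide)
    have h7 : x = ⟨0, x.pos⟩ := Ch.ext (Fin.ext h5) rfl
    refine ⟨x.pos, ?_, h7.symm⟩
    by_contra h8
    rw [h7, h4 x.pos (by
      by_contra h9
      exact h8 (Set.mem_Iio.2 (by omega)))] at hx'
    exact absurd hx' (by decide)
  have h4 : c1 * c2 = 0 := by
    rw [← hN1 (max N1 N2) (le_max_left _ _), ← hN2 (max N1 N2) (le_max_right _ _), ← map_mul,
      hmul, map_zero]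
  have h5 : c1 = 0 ∨ c2 = 0 := mul_eq_zero.1 h4
  rcases h5 with rfl | rfl
  · exact h1 (finite_mult f1 (hfin f1 N1 (fun x hx => (hoff x hx).1) hN1))
  · exact h2 (finite_mult f2 (hfin f2 N2 (fun x hx => (hoff x hx).2) hN2))

theorem splits_of_equiv (σ : Al ≃[algLang (ZMod 2)] Al) {f : Al} (h : Splits (σ f)) :
    Splits f := by
  have hadd : ∀ x y : Al, σ (x + y) = σ x + σ y := by
    intro x y
    exact HomClass.map_fun σ (AlgFunc.add : (algLang (ZMod 2)).Functions 2) ![x, y]
  have hmul : ∀ x y : Al, σ (x * y) = σ x * σ y := by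
    intro x y
    exact HomClass.map_fun σ (AlgFunc.mul : (algLang (ZMod 2)).Functions 2) ![x, y]
  have hzero : σ 0 = 0 := by
    have := hadd 0 0
    rw [add_zero] at this
    exact (left_eq_add.1 this)
  obtain ⟨g1, g2, h1, h2, h3, h4⟩ := h
  obtain ⟨f1, rfl⟩ := σ.surjective g1
  obtain ⟨f2, rfl⟩ := σ.surjective g2
  have key : ∀ f : Al, {c : Al | c * σ f = c}.Infinite → {c : Al | c * f = c}.Infinite := by
    intro f hf hfin
    apply hf
    refine (hfin.image σ).subset fun c hc => ?_
    obtain ⟨d, rfl⟩ := σ.surjective c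
    refine ⟨d, ?_, rfl⟩
    apply σ.injective
    rw [hmul]
    exact hc
  refine ⟨f1, f2, ?_, ?_, key f1 h3, key f2 h4⟩
  · apply σ.injective
    rw [hadd, h1]
  · apply σ.injective
    rw [hmul, h2, hzero]

/-- There are a commutative monoid `S` which is logically homogeneous as a semigroup and two
elements of the algebra of `S` over the field with two elements (which is logically homogeneous)
with the same type which are not conjugate under an automorphism.  So the statement in the question
is false. -/
theorem result :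
    (∃ (S : Type) (_ : CommMonoid S), LogicallyHomogeneous sgLang S ∧
      FieldHomogeneous (ZMod 2) ∧
      ∃ a b : MonoidAlgebra (ZMod 2) S,
        (∀ φ : (algLang (ZMod 2)).Formula (Fin 1),
          φ.Realize (fun _ => a) ↔ φ.Realize (fun _ => b)) ∧
        ¬ ∃ σ : MonoidAlgebra (ZMod 2) S ≃[algLang (ZMod 2)] MonoidAlgebra (ZMod 2) S,
          σ a = b) ∧
    ¬ Statement := by
  have hno : ¬ ∃ σ : Al ≃[algLang (ZMod 2)] Al, σ ea = eb := by
    rintro ⟨σ, hσ⟩
    exact not_splits_a (splits_of_equiv σ (hσ ▸ splits_b))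
  refine ⟨⟨Ch, chMonoid, ch_homogeneous, field_homogeneous, ea, eb, sameType, hno⟩, ?_⟩
  intro hS
  have h1 := hS Ch (ZMod 2) ch_homogeneous field_homogeneous
  obtain ⟨σ, hσ⟩ := (h1 1 (fun _ => ea) (fun _ => eb)).1 sameType
  exact hno ⟨σ, hσ 0⟩

end Pool.Agent.Results.MP_c05c30_lc.ChainAlgebra
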